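import Mathlib
import Pool.Agent.H.MP_31068f_lc.Main

set_option autoImplicit false

namespace Pool.Agent.Results.MP_b27926_lc.Counter

open Pool.Agent.H.MP_26c4ab_lc Pool.Agent.H.MP_31068f_lc

theorem result : ∃ F : Ultrafilter ℕ+, MinimalFor MDvd F ∧ ¬ MinimalFor FE F :=
  ⟨GG, GG_min, GG_not_min⟩

end Pool.Agent.Results.MP_b27926_lc.Counter
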